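import Mathlib
import Pool.Agent.Helper9.BasicSeq

set_option autoImplicit false

namespace Pool.Agent.Results.MP_6df72f_an.BasicExtension

open Filter Topology

/-- `(y_n)` is a basic sequence in the normed space `Y`: nonzero vectors such that every `v` in the
closed linear span has a unique norm-convergent expansion `v = ∑ α_n y_n`. -/
def IsBasicSequence (𝕜 : Type*) [RCLike 𝕜] {Y : Type*} [NormedAddCommGroup Y] [NormedSpace 𝕜 Y]
    (y : ℕ → Y) : Prop :=
  (∀ n, y n ≠ 0) ∧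
  ∀ v ∈ (Submodule.span 𝕜 (Set.range y)).topologicalClosure,
    ∃! α : ℕ → 𝕜, Tendsto (fun N => ∑ i ∈ Finset.range N, α i • y i) atTop (𝓝 v)

/-- Every basic sequence in `G*` (`G` a subspace of the Banach space `E` over `ℝ` or `ℂ`) consists
of the restrictions to `G` of a basic sequence in `E*`. -/
theorem result {𝕜 E : Type*} [RCLike 𝕜] [NormedAddCommGroup E] [NormedSpace 𝕜 E] [CompleteSpace E]
    (G : Submodule 𝕜 E) (_hG : IsClosed (G : Set E)) (φ : ℕ → (G →L[𝕜] 𝕜))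
    (hφ : IsBasicSequence 𝕜 φ) :
    ∃ f : ℕ → (E →L[𝕜] 𝕜), IsBasicSequence 𝕜 f ∧ ∀ n, ∀ x : G, f n x = φ n x := by
  by_cases hfd : FiniteDimensional 𝕜 (Pool.Agent.Helper9.BasicSeq.ann G)
  · obtain ⟨L, hL⟩ := Pool.Agent.Helper9.BasicSeq.exists_lift G hfd
    refine ⟨fun n => L (φ n), ⟨?_, ?_⟩, ?_⟩
    · intro n h
      apply hφ.1 n
      have h' : L (φ n) = 0 := h
      rw [← hL (φ n), h', map_zero]
    · exact Pool.Agent.Helper9.BasicSeq.lift_basic L (Pool.Agent.Helper9.BasicSeq.res G) hL φ hφ.2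
    · intro n x
      exact DFunLike.congr_fun (hL (φ n)) x
  · obtain ⟨f, h1, h2, h3⟩ := Pool.Agent.Helper9.BasicSeq.infinite_case G hfd φ
    exact ⟨f, ⟨h1, h2⟩, fun n x => DFunLike.congr_fun (h3 n) x⟩

end Pool.Agent.Results.MP_6df72f_an.BasicExtension
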